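import Pool.Agent.Helper36.RN.Goals

/-!
Packet SOB of project RFn, existence part: the Sobolev inequality on the sphere, general dimension.
Adapted from the proof for n = 3 in Pool/Agent/Helper40/RS/SOB.lean.
-/

namespace Pool.Agent.Helper49.RN

open Set Filter Topology MeasureTheory Pool.Agent.Helper47.RFn Pool.Agent.Helper36.RN
open scoped ContDiff ENNReal NNReal

variable {n : ℕ}

/-- an annulus -/
def An (n : ℕ) : Set (EE n) := Metric.closedBall 0 (3 / 4) \ Metric.ball 0 (1 / 4)

theorem An_ne {y : EE n} (hy : y ∈ An n) : y ≠ 0 := by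
  rintro rfl
  exact hy.2 (by simp)

theorem An_ball : An n ⊆ Metric.ball (0 : EE n) 1 := by
  intro y hy
  have h := hy.1
  rw [mem_closedBall_zero_iff] at h
  rw [mem_ball_zero_iff]
  linarith

theorem isCompact_An : IsCompact (An n) := (isCompact_closedBall 0 (3 / 4)).diff Metric.isOpen_ball

/-- a product with a cut off function is smooth -/
theorem smooth_mul {c v : EE n → ℝ} (hc : ContDiff ℝ ∞ c) (hs : tsupport c ⊆ An n)
    (hv : ContDiffOn ℝ ∞ v {0}ᶜ) : ContDiff ℝ ∞ (fun y => c y * v y) := by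
  rw [contDiff_iff_contDiffAt]
  intro y
  by_cases hy : y ∈ tsupport c
  · have h0 : y ≠ 0 := An_ne (hs hy)
    exact hc.contDiffAt.mul (hv.contDiffAt (isOpen_compl_singleton.mem_nhds h0))
  · have h1 : (fun y => c y * v y) =ᶠ[𝓝 y] fun _ => (0 : ℝ) := by
      rw [notMem_tsupport_iff_eventuallyEq] at hy
      filter_upwards [hy] with z hz
      simp only [Pi.zero_apply] at hz
      rw [hz, zero_mul]
    exact contDiffAt_const.congr_of_eventuallyEq h1

/-- coefficients of a partial derivative in the rotation fields -/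
noncomputable def aa (i : Fin (n + 1)) (y : EE n) : ℝ := (‖y‖ ^ 2)⁻¹ * y i

theorem aa_smooth (i : Fin (n + 1)) : ContDiffOn ℝ ∞ (aa (n := n) i) {0}ᶜ := by
  intro y hy
  have h0 : y ≠ 0 := hy
  have h1 : ContDiffAt ℝ ∞ (fun y : EE n => (‖y‖ ^ 2)⁻¹) y := by
    apply ContDiffAt.inv
    · exact (contDiff_norm_sq ℝ).contDiffAt
    · have := norm_pos_iff.mpr h0
      positivity
  have h2 : ContDiff ℝ ∞ (fun y : EE n => y i) := (EuclideanSpace.proj (𝕜 := ℝ) i).contDiff
  exact (h1.mul h2.contDiffAt).contDiffWithinAt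

theorem euler (v : XS n) {y : EE n} (hy : y ≠ 0) : ∑ i, y i * pd i (ext v.1) y = 0 := by
  have h := congrArg (fun f : XS n => f.1 ⟨y, hy⟩) (nu_Ee v)
  simp only [sum_val, mul_val, zero_val, nu_apply, Ee_apply] at h
  refine Eq.trans (Finset.sum_congr rfl fun i _ => ?_) h
  have hn : ‖y‖ ≠ 0 := norm_ne_zero_iff.2 hy
  rw [nn, ed]
  field_simp

theorem pd_frame (v : XS n) {y : EE n} (hy : y ≠ 0) (j : Fin (n + 1)) :
    pd j (ext v.1) y = ∑ i, aa i y * ext (Ld (i, j) v).1 y := by
  have hn : ‖y‖ ≠ 0 := norm_ne_zero_iff.2 hy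
  have h1 : ∀ i, aa i y * ext (Ld (i, j) v).1 y =
      (‖y‖ ^ 2)⁻¹ * (y i ^ 2 * pd j (ext v.1) y - y j * (y i * pd i (ext v.1) y)) := by
    intro i
    rw [ext_Ld, Lr, aa]
    ring
  have h2 : ∑ i, y i ^ 2 = ‖y‖ ^ 2 := by
    rw [EuclideanSpace.norm_sq_eq]
    simp only [Real.norm_eq_abs, sq_abs]
  rw [Finset.sum_congr rfl fun i _ => h1 i, ← Finset.mul_sum, Finset.sum_sub_distrib,
    ← Finset.mul_sum, ← Finset.sum_mul, euler v hy, h2]
  field_simp
  ring

/-- operators of order `k` with smooth coefficients supported in the annulus -/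
def Good (k : ℕ) (T : XS n → EE n → ℝ) : Prop :=
  ∃ (ι : Type) (_ : Fintype ι) (c : ι → EE n → ℝ) (w : ι → List (KK n)),
    (∀ j, ContDiff ℝ ∞ (c j)) ∧ (∀ j, tsupport (c j) ⊆ An n) ∧ (∀ j, (w j).length ≤ k) ∧
    ∀ u y, T u y = ∑ j, c j y * ext (Wd (w j) u).1 y

theorem Good.smooth {k : ℕ} {T : XS n → EE n → ℝ} (hT : Good k T) (u : XS n) :
    ContDiff ℝ ∞ (T u) := by
  obtain ⟨ι, _, c, w, hc, hs, -, hT⟩ := hT
  have h : T u = fun y => ∑ j, c j y * ext (Wd (w j) u).1 y := funext (hT u)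
  rw [h]
  exact ContDiff.sum fun j _ => smooth_mul (hc j) (hs j) (Wd (w j) u).2.cd

theorem Good.zero {k : ℕ} {T : XS n → EE n → ℝ} (hT : Good k T) (u : XS n) {y : EE n}
    (hy : y ∉ An n) : T u y = 0 := by
  obtain ⟨ι, _, c, w, -, hs, -, hT⟩ := hT
  rw [hT]
  refine Finset.sum_eq_zero fun j _ => ?_
  have : c j y = 0 := image_eq_zero_of_notMem_tsupport fun h => hy (hs j h)
  rw [this, zero_mul]

theorem Good.der {k : ℕ} {T : XS n → EE n → ℝ} (hT : Good k T) (l : Fin (n + 1)) :
    Good (k + 1) (fun u y => pd l (T u) y) := by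
  obtain ⟨ι, _, c, w, hc, hs, hw, hT⟩ := hT
  refine ⟨ι ⊕ (ι × Fin (n + 1)), inferInstance,
    Sum.elim (fun j y => pd l (c j) y) (fun p y => c p.1 y * aa p.2 y),
    Sum.elim w (fun p => (p.2, l) :: w p.1), ?_, ?_, ?_, ?_⟩
  · rintro (j | p)
    · exact ((hc j).fderiv_right (m := ∞) (by simp)).clm_apply contDiff_const
    · exact smooth_mul (hc p.1) (hs p.1) (aa_smooth p.2)
  · rintro (j | p)
    · exact (tsupport_fderiv_apply_subset ℝ _).trans (hs j)
    · exact (tsupport_mul_subset_left).trans (hs p.1)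
  · rintro (j | p)
    · exact (hw j).trans (Nat.le_succ k)
    · simp only [Sum.elim_inr, List.length_cons]
      exact Nat.succ_le_succ (hw p.1)
  · intro u y
    have h : T u = fun y => ∑ j, c j y * ext (Wd (w j) u).1 y := funext (hT u)
    have hd : ∀ j, DifferentiableAt ℝ (fun y => c j y * ext (Wd (w j) u).1 y) y := fun j =>
      ((smooth_mul (hc j) (hs j) (Wd (w j) u).2.cd).differentiable (by simp)) y
    have h2 : fderiv ℝ (T u) y = ∑ j, fderiv ℝ (fun y => c j y * ext (Wd (w j) u).1 y) y := by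
      rw [h]
      exact fderiv_fun_sum fun j _ => hd j
    change fderiv ℝ (T u) y (EuclideanSpace.single l 1) = _
    rw [h2, sum_apply, Fintype.sum_sum_type, Fintype.sum_prod_type,
      ← Finset.sum_add_distrib]
    refine Finset.sum_congr rfl fun j _ => ?_
    simp only [Sum.elim_inl, Sum.elim_inr]
    by_cases hy : y = 0
    · have hy' : y ∉ tsupport (c j) := fun h => An_ne (hs j h) hy
      have e1 : c j y = 0 := image_eq_zero_of_notMem_tsupport hy'
      have e2 : pd l (c j) y = 0 := by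
        rw [pd, fderiv_of_notMem_tsupport ℝ hy']
        rfl
      have e3 : fderiv ℝ (fun y => c j y * ext (Wd (w j) u).1 y) y = 0 := by
        apply fderiv_of_notMem_tsupport
        exact fun h => hy' (tsupport_mul_subset_left h)
      rw [e1, e2, e3]
      simp
    · have hv : DifferentiableAt ℝ (ext (Wd (w j) u).1) y :=
        ((Wd (w j) u).2.cd.contDiffAt (isOpen_compl_singleton.mem_nhds hy)).differentiableAt
          (by simp)
      have hcd : DifferentiableAt ℝ (c j) y := ((hc j).differentiable (by simp)) y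
      have e4 : fderiv ℝ (ext (Wd (w j) u).1) y (EuclideanSpace.single l 1) =
          ∑ i, aa i y * ext (Ld (i, l) (Wd (w j) u)).1 y := pd_frame (Wd (w j) u) hy l
      rw [fderiv_fun_mul hcd hv, add_apply, smul_apply,
        smul_apply, e4, smul_eq_mul, smul_eq_mul,
        Finset.mul_sum, add_comm]
      congr 1
      · rw [pd]
        ring
      · refine Finset.sum_congr rfl fun i _ => ?_
        rw [Wd_cons]
        ring

/-- fundamental theorem of calculus in one direction -/
theorem ftc {k : ℕ} {T : XS n → EE n → ℝ} (hT : Good k T) (u : XS n) (x : EE n)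
    (l : Fin (n + 1)) :
    ‖T u x‖ₑ ≤ ∫⁻ s : ℝ, ‖pd l (T u) (x + s • EuclideanSpace.single l (1 : ℝ))‖ₑ := by
  obtain ⟨e, he'⟩ : ∃ e : EE n, e = EuclideanSpace.single l (1 : ℝ) := ⟨_, rfl⟩
  have hen' : ‖e‖ = 1 := by rw [he']; simp
  have hsm := hT.smooth u
  set g : ℝ → ℝ := fun s => T u (x + s • e) with hg
  have h1 : ContDiff ℝ 1 g := by
    have : ContDiff ℝ 1 (T u) := hsm.of_le (by simp)
    exact this.comp (contDiff_const.add (contDiff_id.smul contDiff_const))
  have hen : 0 < ‖e‖ := by rw [hen']; exact one_pos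
  have h2 : HasCompactSupport g := by
    refine HasCompactSupport.intro (K := Icc (-((1 + ‖x‖) / ‖e‖)) ((1 + ‖x‖) / ‖e‖)) isCompact_Icc
      fun s hs => ?_
    apply hT.zero u
    intro hK
    have h3 := An_ball hK
    rw [mem_ball_zero_iff] at h3
    apply hs
    rw [mem_Icc, ← abs_le, le_div_iff₀ hen]
    have h4 : ‖s • e‖ ≤ ‖x + s • e‖ + ‖x‖ := by
      have := norm_sub_le (x + s • e) x
      simpa using this
    rw [norm_smul, Real.norm_eq_abs] at h4
    linarith
  have h3 : ∀ s, deriv g s = fderiv ℝ (T u) (x + s • e) e := by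
    intro s
    have hd : HasFDerivAt (T u) (fderiv ℝ (T u) (x + s • e)) (x + s • e) :=
      (hsm.differentiable (by simp) _).hasFDerivAt
    have hl : HasDerivAt (fun s : ℝ => x + s • e) e s := by
      simpa using ((hasDerivAt_id s).smul_const e).const_add x
    exact (hd.comp_hasDerivAt s hl).deriv
  have h4 := HasCompactSupport.enorm_le_lintegral_Ici_deriv h1 h2 0
  have h5 : g 0 = T u x := by simp [hg]
  rw [h5] at h4
  refine h4.trans ((setLIntegral_le_lintegral _ _).trans (le_of_eq ?_))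
  simp only [h3, pd, he']

/-- iterated partial derivatives -/
noncomputable def itT : (k : ℕ) → (Fin k → Fin (n + 1)) → (XS n → EE n → ℝ) → XS n → EE n → ℝ
  | 0, _, T => T
  | k + 1, J, T => itT k (fun i => J i.succ) (fun u y => pd (J 0) (T u) y)

theorem Good.it (k : ℕ) : ∀ {m : ℕ} {T : XS n → EE n → ℝ} (_ : Good m T)
    (J : Fin k → Fin (n + 1)), Good (m + k) (itT k J T) := by
  induction k with
  | zero => exact fun hT _ => hT
  | succ k ih =>
    intro m T hT J
    have h := ih (hT.der (J 0)) (fun i => J i.succ)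
    rwa [add_assoc, add_comm 1 k] at h

theorem iter (k : ℕ) : ∀ {m : ℕ} {T : XS n → EE n → ℝ} (_ : Good m T)
    (J : Fin k → Fin (n + 1)) (u : XS n) (x : EE n), ‖T u x‖ₑ ≤ ∫⁻ p : Fin k → ℝ,
      ‖itT k J T u (x + ∑ i, p i • EuclideanSpace.single (J i) (1 : ℝ))‖ₑ := by
  induction k with
  | zero =>
    intro m T hT J u x
    have h1 : (volume : Measure (Fin 0 → ℝ)) = Measure.dirac default := by
      rw [volume_pi, Measure.pi_of_empty]
      congr 1
      exact Subsingleton.elim _ _
    rw [h1, lintegral_dirac]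
    simp [itT]
  | succ k ih =>
    intro m T hT J u x
    have g1 := hT.der (J 0)
    have g2 := g1.it k (fun i => J i.succ)
    have hFc : Continuous (itT (k + 1) J T u) := (g2.smooth u).continuous
    have hmeas : Measurable (fun p : Fin (k + 1) → ℝ =>
        ‖itT (k + 1) J T u (x + ∑ i, p i • EuclideanSpace.single (J i) (1 : ℝ))‖ₑ) := by
      apply Continuous.measurable
      refine (hFc.comp (continuous_const.add ?_)).enorm
      exact continuous_finsetSum _ fun i _ => (continuous_apply i).smul continuous_const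
    have hmp := (volume_preserving_piFinSuccAbove (fun _ : Fin (k + 1) => ℝ) 0).symm
    have hm2 : Measurable (fun a : ℝ × (Fin k → ℝ) => ‖itT (k + 1) J T u (x + ∑ i,
        (MeasurableEquiv.piFinSuccAbove (fun _ : Fin (k + 1) => ℝ) 0).symm a i •
          EuclideanSpace.single (J i) (1 : ℝ))‖ₑ) := hmeas.comp hmp.measurable
    rw [← hmp.lintegral_comp hmeas, Measure.volume_eq_prod, lintegral_prod _ hm2.aemeasurable]
    refine (ftc hT u x (J 0)).trans (lintegral_mono fun s => ?_)
    refine (ih g1 (fun i => J i.succ) u (x + s • EuclideanSpace.single (J 0) (1 : ℝ))).trans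
      (lintegral_mono fun p => le_of_eq ?_)
    have e1 : ∀ i, ((MeasurableEquiv.piFinSuccAbove (fun _ : Fin (k + 1) => ℝ) 0).symm (s, p)) i =
        (Fin.cons s p : Fin (k + 1) → ℝ) i := by
      intro i
      have e0 : (MeasurableEquiv.piFinSuccAbove (fun _ : Fin (k + 1) => ℝ) 0).symm (s, p) =
          Fin.insertNth (α := fun _ => ℝ) 0 s p := rfl
      rw [e0, Fin.insertNth_zero']
    simp only [e1, Fin.sum_univ_succ, Fin.cons_zero, Fin.cons_succ]
    rw [add_assoc]
    rfl

/-- change of variables -/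
theorem chg (F : EE n → ℝ) (x : EE n) (hF : Continuous F) :
    ∫⁻ p : Fin (n + 1) → ℝ, ‖F (x + ∑ i, p i • EuclideanSpace.single i (1 : ℝ))‖ₑ =
      ∫⁻ y, ‖F y‖ₑ := by
  have e1 : ∀ p : Fin (n + 1) → ℝ, ∑ i, p i • EuclideanSpace.single i (1 : ℝ) =
      WithLp.toLp 2 p := by
    intro p
    ext j
    simp [Finset.sum_apply, Pi.single_apply]
  have hm : Measurable (fun y : EE n => ‖F (x + y)‖ₑ) :=
    (hF.comp (continuous_const.add continuous_id)).enorm.measurable
  simp only [e1]
  rw [(PiLp.volume_preserving_toLp (Fin (n + 1))).lintegral_comp hm,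
    lintegral_add_left_eq_self (fun y => ‖F y‖ₑ) x]

/-- Cauchy-Schwarz on the ball -/
theorem csb (v : XS n) : (∫ y in Metric.ball (0 : EE n) 1, |ext v.1 y|) ^ 2 ≤
    (volume (Metric.ball (0 : EE n) 1)).toReal *
      ∫ y in Metric.ball (0 : EE n) 1, ext v.1 y * ext v.1 y := by
  set a := ∫ y in Metric.ball (0 : EE n) 1, |ext v.1 y| with ha
  set b := ∫ y in Metric.ball (0 : EE n) 1, ext v.1 y * ext v.1 y with hb
  set V := (volume (Metric.ball (0 : EE n) 1)).toReal with hV
  have hfin : volume (Metric.ball (0 : EE n) 1) ≠ (⊤ : ℝ≥0∞) := measure_ball_lt_top.ne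
  have i1 : IntegrableOn (fun y => |ext v.1 y|) (Metric.ball (0 : EE n) 1) :=
    (integrable_val v).norm
  have i2 : IntegrableOn (fun y => ext v.1 y * ext v.1 y) (Metric.ball (0 : EE n) 1) := by
    have h := integrable_val (v * v)
    change IntegrableOn (ext (v.1 * v.1)) _ at h
    rwa [ext_mul] at h
  have i3 : ∀ t : ℝ, IntegrableOn (fun _ : EE n => t) (Metric.ball (0 : EE n) 1) := fun t =>
    integrableOn_const hfin
  have h : ∀ t : ℝ, 0 ≤ V * (t * t) + (-2 * a) * t + b := by
    intro t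
    have h1 : 0 ≤ ∫ y in Metric.ball (0 : EE n) 1, (|ext v.1 y| - t) ^ 2 :=
      integral_nonneg fun y => sq_nonneg _
    have h2 : ∫ y in Metric.ball (0 : EE n) 1, (|ext v.1 y| - t) ^ 2 =
        ∫ y in Metric.ball (0 : EE n) 1,
          (ext v.1 y * ext v.1 y + (-2 * t) * |ext v.1 y| + t * t) := by
      refine integral_congr_ae (ae_of_all _ fun y => ?_)
      have : |ext v.1 y| ^ 2 = ext v.1 y ^ 2 := sq_abs _
      simp only
      nlinarith
    have i12 : IntegrableOn (fun y => ext v.1 y * ext v.1 y + (-2 * t) * |ext v.1 y|)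
        (Metric.ball (0 : EE n) 1) := i2.add (i1.const_mul _)
    rw [h2, integral_add i12 (i3 _), integral_add i2 (i1.const_mul _),
      integral_const_mul, setIntegral_const, smul_eq_mul] at h1
    have h3 : (volume.real (Metric.ball (0 : EE n) 1)) = V := rfl
    rw [h3] at h1
    nlinarith
  have h2 := discrim_le_zero h
  rw [discrim] at h2
  nlinarith

/-- the cut off function -/
theorem exists_cut : ∃ c : EE n → ℝ, ContDiff ℝ ∞ c ∧ tsupport c ⊆ An n ∧
    ∀ x : EE n, ‖x‖ = 1 / 2 → c x = 1 := by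
  let φ : ContDiffBump (1 / 4 : ℝ) := ⟨1 / 16, 1 / 8, by norm_num, by norm_num⟩
  refine ⟨fun y => φ (‖y‖ ^ 2), φ.contDiff.comp (contDiff_norm_sq ℝ), ?_, ?_⟩
  · apply closure_minimal
    · intro y hy
      have h1 : ‖y‖ ^ 2 ∈ Function.support φ := hy
      rw [φ.support_eq, Metric.mem_ball, Real.dist_eq, abs_lt] at h1
      have h2 : φ.rOut = 1 / 8 := rfl
      rw [h2] at h1
      have h3 := norm_nonneg y
      constructor
      · rw [mem_closedBall_zero_iff]
        nlinarith
      · rw [mem_ball_zero_iff]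
        intro h4
        nlinarith
    · exact (isCompact_An).isClosed
  · intro x hx
    simp only [hx]
    apply φ.one_of_mem_closedBall
    rw [Metric.mem_closedBall, Real.dist_eq]
    have h2 : φ.rIn = 1 / 16 := rfl
    rw [h2]
    norm_num

theorem l1_bound {k : ℕ} {T : XS n → EE n → ℝ} (hT : Good k T) : ∃ M : ℝ, 0 ≤ M ∧ ∀ u : XS n,
    (∫ y, ‖T u y‖) ^ 2 ≤ M * sn k u := by
  have hT' := hT
  obtain ⟨ι, _, c, w, hc, hs, hw, hTe⟩ := hT'
  -- a bound of the coefficients
  have hb : ∀ j, ∃ B, ∀ y, ‖c j y‖ ≤ B := by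
    intro j
    have hcs : HasCompactSupport (c j) := isCompact_An.of_isClosed_subset (isClosed_tsupport _) (hs j)
    exact hcs.exists_bound_of_continuous (hc j).continuous
  choose B hB using hb
  set V := (volume (Metric.ball (0 : EE n) 1)).toReal with hV
  have hV0 : 0 ≤ V := ENNReal.toReal_nonneg
  have hn1 : (0 : ℝ) < (n : ℝ) + 1 := by positivity
  refine ⟨(∑ j, |B j|) ^ 2 * (V / ((n : ℝ) + 1)), by positivity, fun u => ?_⟩
  have hsn := sn_nonneg k u
  have hz : ∀ y, y ∉ Metric.ball (0 : EE n) 1 → ‖T u y‖ = 0 := by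
    intro y hy
    rw [hT.zero u fun h => hy (An_ball h), norm_zero]
  have h1 : ∫ y, ‖T u y‖ = ∫ y in Metric.ball (0 : EE n) 1, ‖T u y‖ :=
    (setIntegral_eq_integral_of_forall_compl_eq_zero hz).symm
  have hcsT : HasCompactSupport (T u) := HasCompactSupport.intro isCompact_An fun y hy =>
    hT.zero u hy
  have hint : Integrable (T u) := (hT.smooth u).continuous.integrable_of_hasCompactSupport hcsT
  have hI : ∀ j, IntegrableOn (fun y => |B j| * |ext (Wd (w j) u).1 y|)
      (Metric.ball (0 : EE n) 1) :=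
    fun j => ((integrable_val (Wd (w j) u)).norm.const_mul _)
  have h2 : ∫ y in Metric.ball (0 : EE n) 1, ‖T u y‖ ≤
      ∑ j, |B j| * ∫ y in Metric.ball (0 : EE n) 1, |ext (Wd (w j) u).1 y| := by
    calc ∫ y in Metric.ball (0 : EE n) 1, ‖T u y‖
        ≤ ∫ y in Metric.ball (0 : EE n) 1, ∑ j, |B j| * |ext (Wd (w j) u).1 y| := by
          apply setIntegral_mono hint.norm.integrableOn (integrable_finsetSum _ fun j _ => hI j)
          intro y
          simp only
          rw [hTe]
          refine (norm_sum_le _ _).trans (Finset.sum_le_sum fun j _ => ?_)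
          rw [norm_mul]
          exact mul_le_mul_of_nonneg_right ((hB j y).trans (le_abs_self _)) (norm_nonneg _)
      _ = _ := by
          rw [integral_finsetSum _ fun j _ => hI j]
          simp only [integral_const_mul]
  have h3 : ∀ j, ∫ y in Metric.ball (0 : EE n) 1, |ext (Wd (w j) u).1 y| ≤
      Real.sqrt (V / ((n : ℝ) + 1) * sn k u) := by
    intro j
    apply Real.le_sqrt_of_sq_le
    refine (csb (Wd (w j) u)).trans ?_
    have h4 := ip_Wd_le (hw j) u
    rw [ip_apply, integ] at h4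
    have h5 : ∫ y in Metric.ball (0 : EE n) 1, ext (Wd (w j) u).1 y * ext (Wd (w j) u).1 y ≤
        sn k u / ((n : ℝ) + 1) := by
      rw [le_div_iff₀ hn1, mul_comm]
      exact h4
    calc _ ≤ V * (sn k u / ((n : ℝ) + 1)) := mul_le_mul_of_nonneg_left h5 hV0
      _ = _ := by ring
  have h6 : ∫ y, ‖T u y‖ ≤ (∑ j, |B j|) * Real.sqrt (V / ((n : ℝ) + 1) * sn k u) := by
    rw [h1, Finset.sum_mul]
    exact h2.trans (Finset.sum_le_sum fun j _ => mul_le_mul_of_nonneg_left (h3 j) (abs_nonneg _))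
  have h7 : 0 ≤ ∫ y, ‖T u y‖ := integral_nonneg fun y => norm_nonneg _
  calc (∫ y, ‖T u y‖) ^ 2 ≤ ((∑ j, |B j|) * Real.sqrt (V / ((n : ℝ) + 1) * sn k u)) ^ 2 :=
        pow_le_pow_left₀ h7 h6 2
    _ = _ := by
        rw [mul_pow, Real.sq_sqrt (mul_nonneg (div_nonneg hV0 hn1.le) hsn)]
        ring

/-- the Sobolev inequality -/
theorem sob : G_SOB := by
  intro n
  obtain ⟨c, hc, hs, h1⟩ := exists_cut (n := n)
  have hT : Good 0 (fun (u : XS n) y => c y * ext u.1 y) :=
    ⟨Unit, inferInstance, fun _ => c, fun _ => [], fun _ => hc, fun _ => hs, fun _ => le_rfl,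
      fun u y => by simp⟩
  have g4 := hT.it (n + 1) id
  rw [zero_add] at g4
  obtain ⟨M, hM0, hM⟩ := l1_bound g4
  refine ⟨M, fun u x => ?_⟩
  obtain ⟨F, hF⟩ : ∃ F, F = itT (n + 1) id (fun (u : XS n) y => c y * ext u.1 y) u := ⟨_, rfl⟩
  have hn : 0 < ‖x.1‖ := norm_pos_iff.mpr x.2
  set r : ℝ := (2 * ‖x.1‖)⁻¹ with hr
  have hr0 : 0 < r := by positivity
  have hnx : ‖r • x.1‖ = 1 / 2 := by
    rw [norm_smul, Real.norm_eq_abs, abs_of_pos hr0, hr]
    field_simp
  have e1 : u.1 x = ext u.1 (r • x.1) := by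
    rw [← ext_apply u.1 x]
    exact (u.2.hom r x.1 hr0).symm
  have h2 := iter (n + 1) hT id u (r • x.1)
  have hcont : Continuous F := by rw [hF]; exact (g4.smooth u).continuous
  simp only [id_eq] at h2
  rw [← hF, chg F (r • x.1) hcont] at h2
  have hcs : HasCompactSupport F :=
    HasCompactSupport.intro isCompact_An fun y hy => by rw [hF]; exact g4.zero u hy
  have hint : Integrable F := hcont.integrable_of_hasCompactSupport hcs
  rw [← ofReal_integral_norm_eq_lintegral_enorm hint] at h2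
  have h5 := hM u
  rw [← hF] at h5
  set J := ∫ y, ‖F y‖ with hJ
  have hJ0 : 0 ≤ J := integral_nonneg fun y => norm_nonneg _
  have h3 : |u.1 x| ≤ J := by
    rw [h1 _ hnx, one_mul, ← e1, ← ofReal_norm,
      ENNReal.ofReal_le_ofReal_iff hJ0] at h2
    exact h2
  calc u.1 x ^ 2 = |u.1 x| ^ 2 := (sq_abs _).symm
    _ ≤ J ^ 2 := by gcongr
    _ ≤ _ := h5

end Pool.Agent.Helper49.RN
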