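import Pool.Agent.Helper36.RN.GoalsG

/-!
# Project RFn, packet CNV: cyclic sum of the covariant derivatives of a 2-form
-/

namespace Pool.Agent.Helper49.RN

open Set Filter Topology Pool.Agent.Helper47.RFn Pool.Agent.Helper36.RN

section

variable {n : ℕ} {𝒜 : Type} [CommRing 𝒜]

theorem cyc1 (f : Ix n → Ix n → Ix n → 𝒜) :
    ∑ i, ∑ j, ∑ k, f j k i = ∑ i, ∑ j, ∑ k, f i j k := by
  rw [Finset.sum_comm]
  refine Finset.sum_congr rfl fun j _ => ?_
  rw [Finset.sum_comm]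

theorem cyc2 (f : Ix n → Ix n → Ix n → 𝒜) :
    ∑ i, ∑ j, ∑ k, f k i j = ∑ i, ∑ j, ∑ k, f i j k := by
  rw [← cyc1 (fun i j k => f k i j)]

theorem fr2_anti (A : Ix n → Ix n → 𝒜) {I : Type}
    (Φ : Ix n → Ix n → I → 𝒜) (hΦ : ∀ i j a, Φ i j a = - Φ j i a) (a b : Ix n) (α : I) :
    TC.fr2 A Φ a b α = - TC.fr2 A Φ b a α := by
  unfold TC.fr2
  rw [Finset.sum_comm, ← Finset.sum_neg_distrib]
  refine Finset.sum_congr rfl fun i _ => ?_
  rw [← Finset.sum_neg_distrib]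
  refine Finset.sum_congr rfl fun j _ => ?_
  rw [hΦ j i α]
  ring

theorem nf_fr2 (n0 : Ix n → 𝒜) (A : Ix n → Ix n → 𝒜) {I : Type}
    (Φ : Ix n → Ix n → I → 𝒜) (p a b : Ix n) (α : I) :
    FR.nf n0 A p * TC.fr2 A Φ a b α = ∑ i, ∑ j, ∑ k, A p i * A a j * A b k * (n0 i * Φ j k α) := by
  unfold FR.nf TC.fr2
  rw [Finset.sum_mul]
  refine Finset.sum_congr rfl fun i _ => ?_
  rw [Finset.mul_sum]
  refine Finset.sum_congr rfl fun j _ => ?_
  rw [Finset.mul_sum]
  refine Finset.sum_congr rfl fun k _ => ?_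
  ring

end

section

variable {n : ℕ} {𝒜 : Type} [CommRing 𝒜] [Algebra ℝ 𝒜]

/-- the first derivative part -/
def L3 (e : Ix n → Derivation ℝ 𝒜 𝒜) (A : Ix n → Ix n → 𝒜) {I : Type} [Fintype I]
    (m : Ix n → I → I → 𝒜) (Φ : Ix n → Ix n → I → 𝒜) (p a b : Ix n) (α : I) : 𝒜 :=
  ∑ i, ∑ j, ∑ k, A p i * A a j * A b k * TC.gD e m i (Φ j k) α

/-- the derivative of the first frame factor -/
def hB (e : Ix n → Derivation ℝ 𝒜 𝒜) (A : Ix n → Ix n → 𝒜) {I : Type}
    (Φ : Ix n → Ix n → I → 𝒜) (p a b : Ix n) (α : I) : 𝒜 :=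
  ∑ j, ∑ k, FR.Fd e A p (A a j) * A b k * Φ j k α

theorem Fd_fr2 (e : Ix n → Derivation ℝ 𝒜 𝒜) (A : Ix n → Ix n → 𝒜) {I : Type}
    (Φ : Ix n → Ix n → I → 𝒜) (hΦ : ∀ i j a, Φ i j a = - Φ j i a)
    (p a b : Ix n) (α : I) :
    FR.Fd e A p (TC.fr2 A Φ a b α) = ∑ i, ∑ j, ∑ k, A p i * A a j * A b k * e i (Φ j k α)
      + hB e A Φ p a b α - hB e A Φ p b a α := by
  have h1 : hB e A Φ p a b α = ∑ i, ∑ j, ∑ k, A p i * (e i (A a j) * A b k * Φ j k α) := by
    rw [← cyc2]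
    unfold hB FR.Fd
    refine Finset.sum_congr rfl fun j _ => ?_
    refine Finset.sum_congr rfl fun k _ => ?_
    rw [Finset.sum_mul, Finset.sum_mul]
    refine Finset.sum_congr rfl fun i _ => ?_
    ring
  have h2 : hB e A Φ p b a α = - ∑ i, ∑ j, ∑ k, A p i * (A a j * e i (A b k) * Φ j k α) := by
    have h3 : ∑ i, ∑ j, ∑ k, A p i * (A a j * e i (A b k) * Φ j k α)
        = ∑ i, ∑ j, ∑ k, A p i * (A a k * e i (A b j) * Φ k j α) :=
      Finset.sum_congr rfl fun i _ => Finset.sum_comm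
    rw [h3, ← cyc2]
    unfold hB FR.Fd
    rw [← Finset.sum_neg_distrib]
    refine Finset.sum_congr rfl fun j _ => ?_
    rw [← Finset.sum_neg_distrib]
    refine Finset.sum_congr rfl fun k _ => ?_
    rw [Finset.sum_mul, Finset.sum_mul, ← Finset.sum_neg_distrib]
    refine Finset.sum_congr rfl fun i _ => ?_
    rw [hΦ j k α]
    ring
  rw [h1, h2]
  unfold FR.Fd TC.fr2
  rw [sub_neg_eq_add, ← Finset.sum_add_distrib, ← Finset.sum_add_distrib]
  refine Finset.sum_congr rfl fun i _ => ?_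
  rw [map_sum, Finset.mul_sum, ← Finset.sum_add_distrib, ← Finset.sum_add_distrib]
  refine Finset.sum_congr rfl fun j _ => ?_
  rw [map_sum, Finset.mul_sum, ← Finset.sum_add_distrib, ← Finset.sum_add_distrib]
  refine Finset.sum_congr rfl fun k _ => ?_
  simp only [Derivation.leibniz, smul_eq_mul]
  ring

theorem L3_eq (e : Ix n → Derivation ℝ 𝒜 𝒜) (A : Ix n → Ix n → 𝒜) {I : Type} [Fintype I]
    (m : Ix n → I → I → 𝒜) (Φ : Ix n → Ix n → I → 𝒜) (p a b : Ix n) (α : I) :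
    L3 e A m Φ p a b α = ∑ i, ∑ j, ∑ k, A p i * A a j * A b k * e i (Φ j k α)
      + ∑ i, ∑ β, A p i * m i α β * TC.fr2 A Φ a b β := by
  unfold L3 TC.gD TC.fr2
  rw [← Finset.sum_add_distrib]
  refine Finset.sum_congr rfl fun i _ => ?_
  have h : ∑ β, A p i * m i α β * ∑ j, ∑ k, A a j * A b k * Φ j k β
      = ∑ j, ∑ k, A p i * A a j * A b k * ∑ β, m i α β * Φ j k β := by
    calc ∑ β, A p i * m i α β * ∑ j, ∑ k, A a j * A b k * Φ j k β
        = ∑ β, ∑ j, ∑ k, A p i * A a j * A b k * (m i α β * Φ j k β) := by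
          refine Finset.sum_congr rfl fun β _ => ?_
          rw [Finset.mul_sum]
          refine Finset.sum_congr rfl fun j _ => ?_
          rw [Finset.mul_sum]
          refine Finset.sum_congr rfl fun k _ => ?_
          ring
      _ = ∑ j, ∑ k, A p i * A a j * A b k * ∑ β, m i α β * Φ j k β := by
          rw [Finset.sum_comm]
          refine Finset.sum_congr rfl fun j _ => ?_
          rw [Finset.sum_comm]
          refine Finset.sum_congr rfl fun k _ => ?_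
          rw [Finset.mul_sum]
  rw [h, ← Finset.sum_add_distrib]
  refine Finset.sum_congr rfl fun j _ => ?_
  rw [← Finset.sum_add_distrib]
  refine Finset.sum_congr rfl fun k _ => ?_
  ring

/-- the part of the covariant derivative that falls on the frame -/
def Hp (e : Ix n → Derivation ℝ 𝒜 𝒜) (A : Ix n → Ix n → 𝒜) (w : Ix n → Ix n → Ix n → 𝒜) {I : Type}
    (Φ : Ix n → Ix n → I → 𝒜) (p a b : Ix n) (α : I) : 𝒜 :=
  hB e A Φ p a b α - ∑ f, TC.Ga A w p a f * TC.fr2 A Φ f b α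

theorem cdg_eq (e : Ix n → Derivation ℝ 𝒜 𝒜) (A : Ix n → Ix n → 𝒜) (w : Ix n → Ix n → Ix n → 𝒜)
    {I : Type} [Fintype I] (m : Ix n → I → I → 𝒜) (Φ : Ix n → Ix n → I → 𝒜)
    (hΦ : ∀ i j a, Φ i j a = - Φ j i a) (p a b : Ix n) (α : I) :
    TC.cdg e A w m Φ p a b α = L3 e A m Φ p a b α + Hp e A w Φ p a b α - Hp e A w Φ p b a α := by
  have h : ∑ f, (TC.Ga A w p a f * TC.fr2 A Φ f b α + TC.Ga A w p b f * TC.fr2 A Φ a f α)
      = ∑ f, TC.Ga A w p a f * TC.fr2 A Φ f b α - ∑ f, TC.Ga A w p b f * TC.fr2 A Φ f a α := by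
    rw [← Finset.sum_sub_distrib]
    refine Finset.sum_congr rfl fun f _ => ?_
    rw [fr2_anti A Φ hΦ a f α]
    ring
  unfold TC.cdg Hp
  rw [Fd_fr2 e A Φ hΦ, L3_eq, h]
  ring

theorem Hp_sub (hF : R_FLV) (e : Ix n → Derivation ℝ 𝒜 𝒜) (n0 : Ix n → 𝒜) (A θ : Ix n → Ix n → 𝒜)
    (w : Ix n → Ix n → Ix n → 𝒜) (hC : CH A θ w)
    {I : Type} (Φ : Ix n → Ix n → I → 𝒜) (p a b : Ix n) (α : I) :
    Hp e A w Φ p a b α - Hp e A w Φ a p b α = - ∑ f, TC.ta e n0 A θ w p a f * TC.fr2 A Φ f b α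
      - FR.nf n0 A p * TC.fr2 A Φ a b α + FR.nf n0 A a * TC.fr2 A Φ p b α := by
  obtain ⟨-, -, h3⟩ := hF n 𝒜 e n0 A θ w hC
  have h4 : hB e A Φ p a b α - hB e A Φ a p b α =
      ∑ f, (TC.Ga A w p a f - TC.Ga A w a p f - TC.ta e n0 A θ w p a f) * TC.fr2 A Φ f b α
      - FR.nf n0 A p * TC.fr2 A Φ a b α + FR.nf n0 A a * TC.fr2 A Φ p b α := by
    have h5 : hB e A Φ p a b α - hB e A Φ a p b α =
        ∑ j, ∑ k, (∑ f, (TC.Ga A w p a f - TC.Ga A w a p f - TC.ta e n0 A θ w p a f) * A f j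
      - FR.nf n0 A p * A a j + FR.nf n0 A a * A p j) * (A b k * Φ j k α) := by
      unfold hB
      rw [← Finset.sum_sub_distrib]
      refine Finset.sum_congr rfl fun j _ => ?_
      rw [← Finset.sum_sub_distrib]
      refine Finset.sum_congr rfl fun k _ => ?_
      rw [← h3 p a j]
      ring
    have h6 : ∑ f, (TC.Ga A w p a f - TC.Ga A w a p f - TC.ta e n0 A θ w p a f) * TC.fr2 A Φ f b α
        = ∑ j, ∑ k, (∑ f, (TC.Ga A w p a f - TC.Ga A w a p f - TC.ta e n0 A θ w p a f) * A f j)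
          * (A b k * Φ j k α) := by
      unfold TC.fr2
      calc _ = ∑ f, ∑ j, ∑ k, (TC.Ga A w p a f - TC.Ga A w a p f - TC.ta e n0 A θ w p a f) * A f j
          * (A b k * Φ j k α) := by
            refine Finset.sum_congr rfl fun f _ => ?_
            rw [Finset.mul_sum]
            refine Finset.sum_congr rfl fun j _ => ?_
            rw [Finset.mul_sum]
            refine Finset.sum_congr rfl fun k _ => ?_
            ring
        _ = _ := by
            rw [← cyc2]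
            refine Finset.sum_congr rfl fun j _ => ?_
            refine Finset.sum_congr rfl fun k _ => ?_
            rw [Finset.sum_mul]
    rw [h5, h6]
    unfold TC.fr2
    rw [Finset.mul_sum, Finset.mul_sum, ← Finset.sum_sub_distrib, ← Finset.sum_add_distrib]
    refine Finset.sum_congr rfl fun j _ => ?_
    rw [Finset.mul_sum, Finset.mul_sum, ← Finset.sum_sub_distrib, ← Finset.sum_add_distrib]
    refine Finset.sum_congr rfl fun k _ => ?_
    ring
  have h7 : ∑ f, (TC.Ga A w p a f - TC.Ga A w a p f - TC.ta e n0 A θ w p a f) * TC.fr2 A Φ f b α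
      = ∑ f, TC.Ga A w p a f * TC.fr2 A Φ f b α - ∑ f, TC.Ga A w a p f * TC.fr2 A Φ f b α
        - ∑ f, TC.ta e n0 A θ w p a f * TC.fr2 A Φ f b α := by
    rw [← Finset.sum_sub_distrib, ← Finset.sum_sub_distrib]
    refine Finset.sum_congr rfl fun f _ => ?_
    ring
  unfold Hp
  rw [h7] at h4
  linear_combination h4

theorem cnv : G_CNV := by
  intro hF n 𝒜 _ _ e n0 A θ w I _ m Φ hC hΦ p a b α
  rw [cdg_eq e A w m Φ hΦ, cdg_eq e A w m Φ hΦ, cdg_eq e A w m Φ hΦ]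
  have h1 := Hp_sub hF e n0 A θ w hC Φ p a b α
  have h2 := Hp_sub hF e n0 A θ w hC Φ a b p α
  have h3 := Hp_sub hF e n0 A θ w hC Φ b p a α
  have hs : ∑ f, (TC.ta e n0 A θ w p a f * TC.fr2 A Φ f b α + TC.ta e n0 A θ w a b f * TC.fr2 A Φ f p α
      + TC.ta e n0 A θ w b p f * TC.fr2 A Φ f a α) = ∑ f, TC.ta e n0 A θ w p a f * TC.fr2 A Φ f b α
      + ∑ f, TC.ta e n0 A θ w a b f * TC.fr2 A Φ f p α
      + ∑ f, TC.ta e n0 A θ w b p f * TC.fr2 A Φ f a α := by
    rw [← Finset.sum_add_distrib, ← Finset.sum_add_distrib]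
  have hL2 : L3 e A m Φ a b p α = ∑ i, ∑ j, ∑ k, A p i * A a j * A b k * TC.gD e m j (Φ k i) α := by
    unfold L3
    rw [← cyc1 (fun i j k => A a i * A b j * A p k * TC.gD e m i (Φ j k) α)]
    refine Finset.sum_congr rfl fun i _ => Finset.sum_congr rfl fun j _ =>
      Finset.sum_congr rfl fun k _ => ?_
    ring
  have hL3 : L3 e A m Φ b p a α = ∑ i, ∑ j, ∑ k, A p i * A a j * A b k * TC.gD e m k (Φ i j) α := by
    unfold L3
    rw [← cyc2 (fun i j k => A b i * A p j * A a k * TC.gD e m i (Φ j k) α)]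
    refine Finset.sum_congr rfl fun i _ => Finset.sum_congr rfl fun j _ =>
      Finset.sum_congr rfl fun k _ => ?_
    ring
  have hN1 := nf_fr2 n0 A Φ p a b α
  have hN2 : FR.nf n0 A a * TC.fr2 A Φ b p α
      = ∑ i, ∑ j, ∑ k, A p i * A a j * A b k * (n0 j * Φ k i α) := by
    rw [nf_fr2, ← cyc1 (fun i j k => A a i * A b j * A p k * (n0 i * Φ j k α))]
    refine Finset.sum_congr rfl fun i _ => Finset.sum_congr rfl fun j _ =>
      Finset.sum_congr rfl fun k _ => ?_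
    ring
  have hN3 : FR.nf n0 A b * TC.fr2 A Φ p a α
      = ∑ i, ∑ j, ∑ k, A p i * A a j * A b k * (n0 k * Φ i j α) := by
    rw [nf_fr2, ← cyc2 (fun i j k => A b i * A p j * A a k * (n0 i * Φ j k α))]
    refine Finset.sum_congr rfl fun i _ => Finset.sum_congr rfl fun j _ =>
      Finset.sum_congr rfl fun k _ => ?_
    ring
  have hR : ∑ i, ∑ j, ∑ k, A p i * A a j * A b k * (TC.gD e m i (Φ j k) α + TC.gD e m j (Φ k i) α
      + TC.gD e m k (Φ i j) α - 2 * (n0 i * Φ j k α + n0 j * Φ k i α + n0 k * Φ i j α))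
      = L3 e A m Φ p a b α + L3 e A m Φ a b p α + L3 e A m Φ b p a α
        - 2 * (FR.nf n0 A p * TC.fr2 A Φ a b α + FR.nf n0 A a * TC.fr2 A Φ b p α
          + FR.nf n0 A b * TC.fr2 A Φ p a α) := by
    rw [hL2, hL3, hN1, hN2, hN3]
    unfold L3
    rw [mul_add, mul_add, Finset.mul_sum, Finset.mul_sum, Finset.mul_sum]
    rw [← Finset.sum_add_distrib, ← Finset.sum_add_distrib, ← Finset.sum_add_distrib,
      ← Finset.sum_add_distrib, ← Finset.sum_sub_distrib]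
    refine Finset.sum_congr rfl fun i _ => ?_
    rw [Finset.mul_sum, Finset.mul_sum, Finset.mul_sum]
    rw [← Finset.sum_add_distrib, ← Finset.sum_add_distrib, ← Finset.sum_add_distrib,
      ← Finset.sum_add_distrib, ← Finset.sum_sub_distrib]
    refine Finset.sum_congr rfl fun j _ => ?_
    rw [Finset.mul_sum, Finset.mul_sum, Finset.mul_sum]
    rw [← Finset.sum_add_distrib, ← Finset.sum_add_distrib, ← Finset.sum_add_distrib,
      ← Finset.sum_add_distrib, ← Finset.sum_sub_distrib]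
    refine Finset.sum_congr rfl fun k _ => ?_
    ring
  rw [hR, hs]
  rw [fr2_anti A Φ hΦ p b α] at h1
  rw [fr2_anti A Φ hΦ a p α] at h2
  rw [fr2_anti A Φ hΦ b a α] at h3
  linear_combination h1 + h2 + h3

end

end Pool.Agent.Helper49.RN
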